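import Mathlib
import Pool.Agent.E8helper27.CB.Stm

set_option autoImplicit false

open Finset

namespace E8h27.CB

namespace FH82

variable {V : Type} [Fintype V]

lemma psd_iff (M : V → V → ℝ) : Psd M ↔ (Matrix.of M).PosSemidef := by
  rw [Matrix.posSemidef_iff_dotProduct_mulVec]
  have hq : ∀ x : V → ℝ, dotProduct (star x) ((Matrix.of M).mulVec x) =
      ∑ i, ∑ j, x i * M i j * x j := by
    intro x
    simp only [dotProduct, Matrix.mulVec, Pi.star_apply, star_trivial, Matrix.of_apply,
      Finset.mul_sum, mul_assoc]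
  constructor
  · rintro ⟨h1, h2⟩
    refine ⟨?_, fun x => by rw [hq]; exact h2 x⟩
    ext i j
    simp [Matrix.conjTranspose_apply, h1 j i]
  · rintro ⟨h1, h2⟩
    refine ⟨fun i j => ?_, fun x => by rw [← hq]; exact h2 x⟩
    have := congrFun (congrFun h1 j) i
    simpa [Matrix.conjTranspose_apply] using this

lemma psd_mul {M N : V → V → ℝ} (hM : Psd M) (hN : Psd N) : Psd (fun i j => M i j * N i j) := by
  rw [psd_iff] at *
  exact hM.hadamard hN

lemma psd_restrict {W : Type} [Fintype W] {M : V → V → ℝ} (hM : Psd M) (e : W → V) :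
    Psd (fun i j => M (e i) (e j)) := by
  rw [psd_iff] at *
  exact hM.submatrix e

lemma sum_rank1 (x u v : V → ℝ) (c : ℝ) :
    ∑ i, ∑ j, x i * (u i * v j * c) * x j = (∑ i, x i * u i) * (∑ j, v j * x j) * c := by
  rw [Finset.sum_mul_sum, Finset.sum_mul]
  refine Finset.sum_congr rfl fun i _ => ?_
  rw [Finset.sum_mul]
  refine Finset.sum_congr rfl fun j _ => ?_
  ring

lemma psd_cs {A : V → V → ℝ} (hA : Psd A) (a b : V) : A a b ^ 2 ≤ A a a * A b b := by
  classical
  have h : ∀ t : ℝ, 0 ≤ A b b * (t * t) + (2 * A a b) * t + A a a := by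
    intro t
    have h1 := hA.2 (fun i => (if i = a then 1 else 0) + t * (if i = b then 1 else 0))
    have h2 : ∑ i, ∑ j, ((if i = a then (1 : ℝ) else 0) + t * (if i = b then 1 else 0)) * A i j *
        ((if j = a then 1 else 0) + t * (if j = b then 1 else 0)) =
        A a a + t * A a b + (t * A b a + t * t * A b b) := by
      simp only [mul_add, add_mul, Finset.sum_add_distrib, mul_ite, ite_mul, mul_one, mul_zero,
        one_mul, zero_mul, Finset.sum_ite_eq', Finset.mem_univ, if_true]
      ring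
    rw [h2, hA.1 b a] at h1
    linarith
  have h3 := discrim_le_zero h
  unfold discrim at h3
  nlinarith

lemma psd_schur {A : V → V → ℝ} (hA : Psd A) (i0 : V) (ha : 0 < A i0 i0) :
    Psd (fun i j => A i j - A i i0 * A i0 j / A i0 i0) := by
  classical
  refine ⟨fun i j => ?_, fun x => ?_⟩
  · change A i j - A i i0 * A i0 j / A i0 i0 = A j i - A j i0 * A i0 i / A i0 i0
    rw [hA.1 i j, hA.1 i i0, hA.1 i0 j, mul_comm (A i0 i)]
  · set s : ℝ := ∑ j, A i0 j * x j with hs
    set a : ℝ := A i0 i0 with haa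
    have h1 := hA.2 (fun i => x i - (s / a) * (if i = i0 then 1 else 0))
    have hs' : ∑ i, x i * A i i0 = s := by
      rw [hs]
      exact Finset.sum_congr rfl fun i _ => by rw [hA.1 i i0, mul_comm]
    have h2 : ∑ i, ∑ j, (x i - (s / a) * (if i = i0 then 1 else 0)) * A i j *
        (x j - (s / a) * (if j = i0 then 1 else 0)) =
        ∑ i, ∑ j, x i * A i j * x j - (s / a) * s - ((s / a) * s - (s / a) * (s / a) * a) := by
      have e1 : ∀ i, ∑ j, (x i - (s / a) * (if i = i0 then 1 else 0)) * A i j *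
          (x j - (s / a) * (if j = i0 then 1 else 0)) =
          ∑ j, x i * A i j * x j - (s / a) * (x i * A i i0) -
          ((if i = i0 then (s / a) * s else 0) - (if i = i0 then (s / a) * (s / a) * a else 0)) := by
        intro i
        have e2 : ∀ j, (x i - (s / a) * (if i = i0 then 1 else 0)) * A i j *
            (x j - (s / a) * (if j = i0 then 1 else 0)) =
            x i * A i j * x j - (if j = i0 then x i * A i j * (s / a) else 0) -
            ((s / a) * (if i = i0 then 1 else 0) * (A i j * x j) -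
            (if j = i0 then (s / a) * (if i = i0 then 1 else 0) * A i j * (s / a) else 0)) := by
          intro j
          split_ifs <;> ring
        rw [Finset.sum_congr rfl fun j _ => e2 j, Finset.sum_sub_distrib, Finset.sum_sub_distrib,
          Finset.sum_sub_distrib, Finset.sum_ite_eq', Finset.sum_ite_eq', ← Finset.mul_sum]
        simp only [Finset.mem_univ, if_true]
        by_cases hi : i = i0
        · subst hi
          simp only [if_true]
          rw [← haa, ← hs]
          ring
        · simp only [if_neg hi]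
          ring
      rw [Finset.sum_congr rfl fun i _ => e1 i, Finset.sum_sub_distrib, Finset.sum_sub_distrib,
        Finset.sum_sub_distrib, Finset.sum_ite_eq', Finset.sum_ite_eq', ← Finset.mul_sum, hs']
      simp only [Finset.mem_univ, if_true]
    rw [h2] at h1
    have h3 : ∑ i, ∑ j, x i * (A i j - A i i0 * A i0 j / a) * x j =
        ∑ i, ∑ j, x i * A i j * x j - s * s * (1 / a) := by
      have := sum_rank1 x (fun i => A i i0) (fun j => A i0 j) (1 / a)
      rw [hs', ← hs] at this
      rw [← this, ← Finset.sum_sub_distrib]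
      refine Finset.sum_congr rfl fun i _ => ?_
      rw [← Finset.sum_sub_distrib]
      refine Finset.sum_congr rfl fun j _ => ?_
      ring
    change 0 ≤ ∑ i, ∑ j, x i * (A i j - A i i0 * A i0 j / a) * x j
    rw [h3]
    have h4 : (s / a) * (s / a) * a = (s / a) * s := by field_simp
    have h5 : s * s * (1 / a) = (s / a) * s := by ring
    rw [h4] at h1
    rw [h5]
    linarith

lemma sum_two_ne [DecidableEq V] (i0 : V) (G : V → V → ℝ) (h1 : ∀ j, G i0 j = 0) (h2 : ∀ i, G i i0 = 0) :
    ∑ i, ∑ j, G i j = ∑ i : {i : V // i ≠ i0}, ∑ j : {j : V // j ≠ i0}, G i j := by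
  rw [Fintype.sum_eq_add_sum_subtype_ne _ i0]
  rw [Finset.sum_eq_zero (fun j _ => h1 j), zero_add]
  refine Finset.sum_congr rfl fun i _ => ?_
  rw [Fintype.sum_eq_add_sum_subtype_ne _ i0, h2, zero_add]

lemma quad_nonneg {p q r : ℝ} (hp : 0 ≤ p) (hr : 0 ≤ r) (h : q ^ 2 ≤ p * r) (u v : ℝ) :
    0 ≤ u * p * u + u * q * v + (v * q * u + v * r * v) := by
  rcases hp.eq_or_lt with h0 | h0
  · rw [← h0, zero_mul] at h
    have hq : q = 0 := by
      have : q ^ 2 = 0 := le_antisymm h (sq_nonneg q)
      exact pow_eq_zero_iff (two_ne_zero) |>.1 this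
    rw [← h0, hq]
    have : 0 ≤ v * r * v := by nlinarith [mul_self_nonneg v]
    linarith
  · have h1 : 0 ≤ p * (u * p * u + u * q * v + (v * q * u + v * r * v)) := by
      have : p * (u * p * u + u * q * v + (v * q * u + v * r * v)) =
          (p * u + q * v) ^ 2 + (p * r - q ^ 2) * v ^ 2 := by ring
      rw [this]
      have := mul_nonneg (sub_nonneg.2 h) (sq_nonneg v)
      positivity
    exact nonneg_of_mul_nonneg_right h1 h0

lemma cs_pow {A : V → V → ℝ} (hA : Psd A) (h0 : ∀ i j, 0 ≤ A i j) {g : ℝ} (hg : 0 ≤ g) (a b : V) :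
    (A a b ^ g) ^ 2 ≤ A a a ^ g * A b b ^ g := by
  have h1 := psd_cs hA a b
  have h2 : (A a b ^ g) ^ 2 = (A a b ^ 2) ^ g := by
    rw [← Real.rpow_natCast, ← Real.rpow_mul (h0 a b), ← Real.rpow_natCast (A a b),
      ← Real.rpow_mul (h0 a b), mul_comm]
  rw [h2, ← Real.mul_rpow (h0 a a) (h0 b b)]
  exact Real.rpow_le_rpow (sq_nonneg _) h1 hg

theorem base (A : V → V → ℝ) (g : ℝ) (hc : Fintype.card V ≤ 2) (hg : 0 ≤ g)
    (h0 : ∀ i j, 0 ≤ A i j) (hA : Psd A) (x : V → ℝ) :
    0 ≤ ∑ i, ∑ j, x i * A i j ^ g * x j := by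
  classical
  rcases Nat.lt_or_ge (Fintype.card V) 2 with h | h
  · have : Subsingleton V := Fintype.card_le_one_iff_subsingleton.1 (by omega)
    refine Finset.sum_nonneg fun i _ => Finset.sum_nonneg fun j _ => ?_
    rw [Subsingleton.elim j i]
    have := Real.rpow_nonneg (h0 i i) g
    nlinarith [mul_self_nonneg (x i), mul_nonneg this (mul_self_nonneg (x i))]
  · have h2 : (univ : Finset V).card = 2 := by rw [Finset.card_univ]; omega
    obtain ⟨a, b, hab, hu⟩ := Finset.card_eq_two.1 h2
    rw [hu, Finset.sum_pair hab, Finset.sum_pair hab, Finset.sum_pair hab]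
    have e : A b a = A a b := hA.1 b a
    rw [e]
    exact quad_nonneg (Real.rpow_nonneg (h0 a a) g) (Real.rpow_nonneg (h0 b b) g)
      (cs_pow hA h0 hg a b) (x a) (x b)

theorem step (n : ℕ)
    (ih : ∀ (V : Type) [Fintype V] (A : V → V → ℝ) (g : ℝ), Fintype.card V ≤ n + 2 →
      (n : ℝ) ≤ g → (∀ i j, 0 ≤ A i j) → Psd A → Psd (fun i j => A i j ^ g))
    (A : V → V → ℝ) (g : ℝ) (hc : Fintype.card V ≤ n + 1 + 2) (hg : ((n + 1 : ℕ) : ℝ) ≤ g)
    (h0 : ∀ i j, 0 ≤ A i j) (hA : Psd A) (x : V → ℝ) :
    0 ≤ ∑ i, ∑ j, x i * A i j ^ g * x j := by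
  classical
  push_cast at hg
  have hn : (0 : ℝ) ≤ n := Nat.cast_nonneg n
  rcases Nat.lt_or_ge (Fintype.card V) (n + 3) with h | h
  · exact (ih V A g (by omega) (by linarith) h0 hA).2 x
  have hne : Nonempty V := Fintype.card_pos_iff.1 (by omega)
  obtain ⟨i0⟩ := hne
  have hcard : Fintype.card {i : V // i ≠ i0} ≤ n + 2 := by
    have := Fintype.card_subtype_lt (p := fun i : V => i ≠ i0) (x := i0) (by simp)
    omega
  rcases (h0 i0 i0).eq_or_lt with hz | hpos
  · -- zero diagonal entry
    have hz1 : ∀ j, A i0 j = 0 := by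
      intro j
      have := psd_cs hA i0 j
      rw [← hz, zero_mul] at this
      exact pow_eq_zero_iff (two_ne_zero) |>.1 (le_antisymm this (sq_nonneg _))
    have hz2 : ∀ j, A j i0 = 0 := fun j => by rw [hA.1 j i0]; exact hz1 j
    have hg0 : g ≠ 0 := by linarith
    rw [sum_two_ne i0 (fun i j => x i * A i j ^ g * x j)
      (fun j => by rw [hz1, Real.zero_rpow hg0]; ring)
      (fun i => by rw [hz2, Real.zero_rpow hg0]; ring)]
    exact (ih {i : V // i ≠ i0} (fun i j => A i j) g hcard (by linarith) (fun i j => h0 i j)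
      (psd_restrict hA (fun i : {i : V // i ≠ i0} => (i : V)))).2 (fun i => x i)
  · set a : ℝ := A i0 i0 with ha
    set Z : V → V → ℝ := fun i j => A i i0 * A i0 j / a with hZ
    set D : V → V → ℝ := fun i j => A i j - Z i j with hD
    have hDpsd : Psd D := psd_schur hA i0 hpos
    have hZ0 : ∀ i j, 0 ≤ Z i j := fun i j => div_nonneg (mul_nonneg (h0 _ _) (h0 _ _)) hpos.le
    have hD1 : ∀ j, D i0 j = 0 := by
      intro j
      simp only [hD, hZ]
      rw [← ha]; field_simp; ring
    have hD2 : ∀ i, D i i0 = 0 := fun i => by rw [hDpsd.1 i i0]; exact hD1 i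
    have hZx : ∀ y : V → ℝ, 0 ≤ ∑ i, ∑ j, y i * Z i j * y j := by
      intro y
      have h1 := sum_rank1 y (fun i => A i i0) (fun j => A i0 j) (1 / a)
      have h2 : ∑ i, ∑ j, y i * Z i j * y j =
          ∑ i, ∑ j, y i * (A i i0 * A i0 j * (1 / a)) * y j := by
        refine Finset.sum_congr rfl fun i _ => Finset.sum_congr rfl fun j _ => ?_
        simp only [hZ]; ring
      have h3 : ∑ i, y i * A i i0 = ∑ j, A i0 j * y j :=
        Finset.sum_congr rfl fun i _ => by rw [hA.1 i i0, mul_comm]
      rw [h2, h1, h3]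
      have : 0 ≤ 1 / a := by positivity
      exact mul_nonneg (mul_self_nonneg _) this
    have hTpsd : ∀ t : ℝ, 0 ≤ t → t ≤ 1 → Psd (fun i j => Z i j + t * D i j) := by
      intro t ht0 ht1
      refine ⟨fun i j => ?_, fun y => ?_⟩
      · change Z i j + t * D i j = Z j i + t * D j i
        rw [hDpsd.1 i j]
        simp only [hZ]
        rw [hA.1 i i0, hA.1 i0 j, mul_comm (A i0 i)]
      · have e : ∑ i, ∑ j, y i * (Z i j + t * D i j) * y j =
            (1 - t) * ∑ i, ∑ j, y i * Z i j * y j + t * ∑ i, ∑ j, y i * A i j * y j := by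
          rw [Finset.mul_sum, Finset.mul_sum, ← Finset.sum_add_distrib]
          refine Finset.sum_congr rfl fun i _ => ?_
          rw [Finset.mul_sum, Finset.mul_sum, ← Finset.sum_add_distrib]
          refine Finset.sum_congr rfl fun j _ => ?_
          simp only [hD]; ring
        change 0 ≤ ∑ i, ∑ j, y i * (Z i j + t * D i j) * y j
        rw [e]
        exact add_nonneg (mul_nonneg (by linarith) (hZx y)) (mul_nonneg ht0 (hA.2 y))
    have hT0 : ∀ t : ℝ, 0 ≤ t → t ≤ 1 → ∀ i j, 0 ≤ Z i j + t * D i j := by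
      intro t ht0 ht1 i j
      have : Z i j + t * D i j = (1 - t) * Z i j + t * A i j := by simp only [hD]; ring
      rw [this]
      exact add_nonneg (mul_nonneg (by linarith) (hZ0 i j)) (mul_nonneg ht0 (h0 i j))
    have hg1 : 1 ≤ g := by linarith
    set f : ℝ → ℝ := fun t => ∑ i, ∑ j, x i * (Z i j + t * D i j) ^ g * x j with hf
    have hder : ∀ t : ℝ, HasDerivAt f
        (∑ i, ∑ j, x i * (D i j * g * (Z i j + t * D i j) ^ (g - 1)) * x j) t := by
      intro t
      refine HasDerivAt.fun_sum fun i _ => HasDerivAt.fun_sum fun j _ => ?_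
      have h1 : HasDerivAt (fun t : ℝ => Z i j + t * D i j) (D i j) t := by
        simpa using ((hasDerivAt_id t).mul_const (D i j)).const_add (Z i j)
      exact ((h1.rpow_const (Or.inr hg1)).const_mul (x i)).mul_const (x j)
    have hpos' : ∀ t : ℝ, 0 ≤ t → t ≤ 1 →
        0 ≤ ∑ i, ∑ j, x i * (D i j * g * (Z i j + t * D i j) ^ (g - 1)) * x j := by
      intro t ht0 ht1
      rw [sum_two_ne i0 (fun i j => x i * (D i j * g * (Z i j + t * D i j) ^ (g - 1)) * x j)
        (fun j => by rw [hD1]; ring) (fun i => by rw [hD2]; ring)]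
      have hT' := ih {i : V // i ≠ i0} (fun i j => Z i j + t * D i j) (g - 1) hcard
        (by linarith) (fun i j => hT0 t ht0 ht1 i j)
        (psd_restrict (hTpsd t ht0 ht1) (fun i : {i : V // i ≠ i0} => (i : V)))
      have hD' := psd_restrict hDpsd (fun i : {i : V // i ≠ i0} => (i : V))
      have h3 := (psd_mul hD' hT').2 (fun i => x i)
      have e : ∑ i : {i : V // i ≠ i0}, ∑ j : {j : V // j ≠ i0},
          x i * (D i j * g * (Z i j + t * D i j) ^ (g - 1)) * x j =
          g * ∑ i : {i : V // i ≠ i0}, ∑ j : {j : V // j ≠ i0},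
          x i * (D i j * (Z i j + t * D i j) ^ (g - 1)) * x j := by
        rw [Finset.mul_sum]
        refine Finset.sum_congr rfl fun i _ => ?_
        rw [Finset.mul_sum]
        refine Finset.sum_congr rfl fun j _ => ?_
        ring
      rw [e]
      exact mul_nonneg (by linarith) h3
    have hmono : MonotoneOn f (Set.Icc 0 1) := by
      refine monotoneOn_of_deriv_nonneg (convex_Icc 0 1)
        (fun t _ => (hder t).continuousAt.continuousWithinAt)
        (fun t _ => (hder t).differentiableAt.differentiableWithinAt) ?_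
      intro t ht
      rw [interior_Icc] at ht
      rw [(hder t).deriv]
      exact hpos' t ht.1.le ht.2.le
    have h01 : f 0 ≤ f 1 := hmono (by simp) (by simp) zero_le_one
    have hf1 : f 1 = ∑ i, ∑ j, x i * A i j ^ g * x j := by
      simp only [hf]
      refine Finset.sum_congr rfl fun i _ => Finset.sum_congr rfl fun j _ => ?_
      have : Z i j + 1 * D i j = A i j := by simp only [hD]; ring
      rw [this]
    have hf0 : 0 ≤ f 0 := by
      have e : f 0 = (∑ i, x i * A i i0 ^ g) * (∑ j, A i0 j ^ g * x j) * (1 / a ^ g) := by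
        rw [← sum_rank1 x (fun i => A i i0 ^ g) (fun j => A i0 j ^ g) (1 / a ^ g)]
        simp only [hf]
        refine Finset.sum_congr rfl fun i _ => Finset.sum_congr rfl fun j _ => ?_
        have : Z i j + 0 * D i j = A i i0 * A i0 j / a := by simp only [hZ]; ring
        rw [this, Real.div_rpow (mul_nonneg (h0 _ _) (h0 _ _)) hpos.le,
          Real.mul_rpow (h0 _ _) (h0 _ _)]
        ring
      have h3 : ∑ i, x i * A i i0 ^ g = ∑ j, A i0 j ^ g * x j :=
        Finset.sum_congr rfl fun i _ => by rw [hA.1 i i0, mul_comm]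
      rw [e, h3]
      have : 0 ≤ 1 / a ^ g := by positivity
      exact mul_nonneg (mul_self_nonneg _) this
    rw [← hf1]
    linarith

end FH82

/-- **FitzGerald and Horn** -/
theorem t_FH : S_FH := by
  intro n
  induction n with
  | zero =>
    intro V _ A g hc hg h0 hA
    refine ⟨fun i j => by change A i j ^ g = A j i ^ g; rw [hA.1 i j], fun x => ?_⟩
    exact FH82.base A g (by omega) (by simpa using hg) h0 hA x
  | succ n ih =>
    intro V _ A g hc hg h0 hA
    refine ⟨fun i j => by change A i j ^ g = A j i ^ g; rw [hA.1 i j], fun x => ?_⟩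
    exact FH82.step n ih A g hc hg h0 hA x

end E8h27.CB
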